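import Pool.Agent.Q296.PS.N3Stm

set_option autoImplicit false

namespace Pool.Agent.Q229.PS

theorem nodup_hrun_296 (x0 n y : ℕ) : (hrun x0 n y).Nodup := by
  unfold hrun
  refine List.Nodup.map ?_ (List.nodup_range)
  intro a b h
  have h1 : x0 + a = x0 + b := congrArg Prod.fst h
  omega

theorem nodup_vrun_296 (x y0 n : ℕ) : (vrun x y0 n).Nodup := by
  unfold vrun
  refine List.Nodup.map ?_ (List.nodup_range)
  intro a b h
  have h1 : y0 + a = y0 + b := congrArg Prod.snd h
  omega

theorem nodup_flatMap_296 (c : ℕ → List Pt) (n : ℕ) (h1 : ∀ i < n, (c i).Nodup)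
    (h2 : ∀ i j, i < j → j < n → ∀ q ∈ c i, q ∈ c j → False) :
    ((List.range n).flatMap c).Nodup := by
  induction n with
  | zero => simp
  | succ n ih =>
    rw [List.range_succ, List.flatMap_append, List.nodup_append]
    refine ⟨ih (fun i hi => h1 i (by omega)) (fun i j hij hj => h2 i j hij (by omega)), ?_, ?_⟩
    · simpa using h1 n (by omega)
    · intro a ha b hb hab
      subst hab
      rw [List.mem_flatMap] at ha
      obtain ⟨i, hi, ha⟩ := ha
      have hb' : a ∈ c n := by simpa using hb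
      exact h2 i n (List.mem_range.1 hi) (by omega) a ha hb'

theorem nodup_zr_296 (r : ℕ → List Pt) (n : ℕ) (h1 : ∀ i < n, (r i).Nodup)
    (h2 : ∀ i j, i < j → j < n → ∀ q ∈ r i, q ∈ r j → False) : (zr r n).Nodup := by
  unfold zr
  apply nodup_flatMap_296
  · intro i hi
    split_ifs
    · exact h1 i hi
    · exact List.nodup_reverse.2 (h1 i hi)
  · intro i j hij hj q hq1 hq2
    refine h2 i j hij hj q ?_ ?_
    · split_ifs at hq1
      · exact hq1
      · exact List.mem_reverse.1 hq1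
    · split_ifs at hq2
      · exact hq2
      · exact List.mem_reverse.1 hq2

theorem nodup_mainP_296 (p : Par) (hL : 1 ≤ p.L) (us : List (List ℕ)) (h : ∀ u ∈ us, u.Nodup) :
    (p.mainP us).Nodup := by
  have key : ∀ n : ℕ, ((us.zipIdx n).flatMap
      (fun q => q.1.map (fun x => (x * p.L, (q.2 + 1) * p.L)))).Nodup ∧
      ∀ q ∈ ((us.zipIdx n).flatMap
      (fun q => q.1.map (fun x => (x * p.L, (q.2 + 1) * p.L)))), (n + 1) * p.L ≤ q.2 := by
    induction us with
    | nil => intro n; simp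
    | cons u us ih =>
      intro n
      obtain ⟨h1, h2⟩ := ih (fun v hv => h v (List.mem_cons_of_mem _ hv)) (n + 1)
      have hu := h u List.mem_cons_self
      rw [List.zipIdx_cons, List.flatMap_cons, List.nodup_append]
      have h3 : ∀ q ∈ List.map (fun x => (x * p.L, ((u, n).2 + 1) * p.L)) (u, n).1,
          q.2 = (n + 1) * p.L := by
        intro q hq
        rw [List.mem_map] at hq
        obtain ⟨x, -, rfl⟩ := hq
        rfl
      have hlt : (n + 1) * p.L < (n + 1 + 1) * p.L := Nat.mul_lt_mul_of_pos_right (by omega) (by omega)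
      refine ⟨⟨?_, h1, ?_⟩, ?_⟩
      · refine List.Nodup.map ?_ hu
        intro a b hab
        have h4 : a * p.L = b * p.L := congrArg Prod.fst hab
        exact Nat.eq_of_mul_eq_mul_right (by omega) h4
      · intro a ha b hb hab
        subst hab
        have h4 := h3 a ha
        have h5 := h2 a hb
        omega
      · intro q hq
        rcases List.mem_append.1 hq with hq | hq
        · exact le_of_eq (h3 q hq).symm
        · have h5 := h2 q hq
          omega
  exact (key 0).1

theorem zoneS_mem_296 (p : Par) (j : ℕ) (q : Pt) (hL : 4 ≤ p.L) (hq : q ∈ p.zoneS j) :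
    j * p.L + 1 ≤ q.1 ∧ q.1 < (j + 1) * p.L ∧ p.Y + 1 ≤ q.2 ∧ q.2 ≤ p.Y + p.D := by
  obtain ⟨i, hi, hq⟩ := of_mem_zr_296 _ _ _ hq
  have h1 := of_mem_hrun_296 _ _ _ _ hq
  have hs : p.s j = p.D - p.cap j := rfl
  rw [Nat.add_mul, Nat.one_mul]
  omega

theorem zoneT_mem_296 (p : Par) (k : ℕ) (q : Pt) (hL : 4 ≤ p.L) (hq : q ∈ p.zoneT k) :
    k * p.L + 1 ≤ q.2 ∧ q.2 < (k + 1) * p.L ∧ p.X + 1 ≤ q.1 ∧ q.1 ≤ p.X + p.D := by
  obtain ⟨i, hi, hq⟩ := of_mem_zr_296 _ _ _ hq
  rw [List.mem_reverse] at hq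
  have h1 := of_mem_vrun_296 _ _ _ _ hq
  rw [Nat.add_mul, Nat.one_mul]
  omega

theorem rowsV_mem_296 (p : Par) (q : Pt) (hq : q ∈ p.rowsV) : q.1 ≤ p.W ∧ p.YY ≤ q.2 := by
  obtain ⟨i, hi, hq⟩ := of_mem_zr_296 _ _ _ hq
  rw [List.mem_reverse] at hq
  have h1 := of_mem_hrun_296 _ _ _ _ hq
  have h3 : p.YY ≤ (i + 1) * p.YY := Nat.le_mul_of_pos_left _ (Nat.succ_pos _)
  omega

theorem colsH_mem_296 (p : Par) (q : Pt) (hq : q ∈ p.colsH) : q.2 ≤ p.H ∧ p.XX ≤ q.1 := by
  obtain ⟨i, hi, hq⟩ := of_mem_zr_296 _ _ _ hq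
  have h1 := of_mem_vrun_296 _ _ _ _ hq
  have h3 : p.XX ≤ (i + 1) * p.XX := Nat.le_mul_of_pos_left _ (Nat.succ_pos _)
  omega

theorem mainP_rows_mem_296 (p : Par) (rows : List Row) (hfit : p.Fits rows) (q : Pt)
    (hq : q ∈ p.mainP (rows.map (rowL true))) :
    q.1 ≤ (p.m + 1) * p.L ∧ q.2 ≤ p.R * p.L := by
  unfold Par.mainP at hq
  rw [List.mem_flatMap] at hq
  obtain ⟨⟨u, i⟩, hu, hq⟩ := hq
  rw [List.mem_map] at hq
  obtain ⟨x, hx, rfl⟩ := hq
  have h1 := List.mem_zipIdx hu
  obtain ⟨-, h2, h3⟩ := h1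
  simp only [List.length_map, Nat.sub_zero, Nat.zero_add, List.getElem_map] at h2 h3
  have hlen := hfit.1
  have h4 := hfit.2 (rows[i]) (List.getElem_mem _)
  have hx2 : x ∈ rowL true rows[i] := by rw [← h3]; exact hx
  have hx3 : x ≤ p.m + 1 := by
    unfold rowL at hx2
    by_cases h5 : (rows[i]).1 = (rows[i]).2
    · rw [if_pos h5, List.mem_singleton] at hx2
      omega
    · rw [if_neg h5, if_pos rfl, List.mem_cons, List.mem_cons] at hx2
      rcases hx2 with hx2 | hx2 | hx2
      · omega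
      · omega
      · exact absurd hx2 List.not_mem_nil
  exact ⟨Nat.mul_le_mul_right _ hx3, Nat.mul_le_mul_right _ (by omega)⟩

theorem f1_296 : F1Stm := by
  intro p rows hok hfit
  have hL := hok.L_pos
  have hXX := hok.XX_lt
  have hYY := hok.YY_lt
  have hHY := hok.H_le
  have hWX := hok.W_le
  have hRL := hok.RL_lt
  have hW : p.W = (p.m + 2) * p.L := rfl
  have hH : p.H = (p.R + 1) * p.L := rfl
  have hWl : (p.m + 1) * p.L + p.L = p.W := by rw [hW]; ring
  -- the parts
  have nM : (p.mainP (rows.map (rowL true))).Nodup := by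
    apply nodup_mainP_296 p (by omega)
    intro u hu
    rw [List.mem_map] at hu
    obtain ⟨ρ, hρ, rfl⟩ := hu
    unfold rowL
    by_cases h : ρ.1 = ρ.2
    · rw [if_pos h]; simp
    · rw [if_neg h, if_pos rfl]; simp [h]
  have nS : ((List.range (p.m + 2)).flatMap p.zoneS).Nodup := by
    apply nodup_flatMap_296
    · intro j hj
      unfold Par.zoneS
      apply nodup_zr_296
      · intro i hi
        exact nodup_hrun_296 _ _ _
      · intro i i' hi hi' q hq1 hq2
        have h1 := of_mem_hrun_296 _ _ _ _ hq1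
        have h2 := of_mem_hrun_296 _ _ _ _ hq2
        omega
    · intro i j hij hj q hq1 hq2
      have h1 := zoneS_mem_296 p _ q hL hq1
      have h2 := zoneS_mem_296 p _ q hL hq2
      have h3 : (i + 1) * p.L ≤ j * p.L := Nat.mul_le_mul_right _ (by omega)
      omega
  have nV : p.rowsV.Nodup := by
    unfold Par.rowsV
    apply nodup_zr_296
    · intro i hi
      exact List.nodup_reverse.2 (nodup_hrun_296 _ _ _)
    · intro i i' hi hi' q hq1 hq2
      rw [List.mem_reverse] at hq1 hq2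
      have h1 := of_mem_hrun_296 _ _ _ _ hq1
      have h2 := of_mem_hrun_296 _ _ _ _ hq2
      have h3 : (i + 1) * p.YY < (i' + 1) * p.YY := Nat.mul_lt_mul_of_pos_right (by omega) (by omega)
      omega
  have nT : ((List.range p.R).flatMap (fun k => p.zoneT (p.R - k))).Nodup := by
    apply nodup_flatMap_296
    · intro j hj
      unfold Par.zoneT
      apply nodup_zr_296
      · intro i hi
        exact List.nodup_reverse.2 (nodup_vrun_296 _ _ _)
      · intro i i' hi hi' q hq1 hq2
        rw [List.mem_reverse] at hq1 hq2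
        have h1 := of_mem_vrun_296 _ _ _ _ hq1
        have h2 := of_mem_vrun_296 _ _ _ _ hq2
        omega
    · intro i j hij hj q hq1 hq2
      have h1 := zoneT_mem_296 p _ q hL hq1
      have h2 := zoneT_mem_296 p _ q hL hq2
      have h3 : (p.R - j + 1) * p.L ≤ (p.R - i) * p.L := Nat.mul_le_mul_right _ (by omega)
      omega
  have nH : p.colsH.Nodup := by
    unfold Par.colsH
    apply nodup_zr_296
    · intro i hi
      exact nodup_vrun_296 _ _ _
    · intro i i' hi hi' q hq1 hq2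
      have h1 := of_mem_vrun_296 _ _ _ _ hq1
      have h2 := of_mem_vrun_296 _ _ _ _ hq2
      have h3 : (i + 1) * p.XX < (i' + 1) * p.XX := Nat.mul_lt_mul_of_pos_right (by omega) (by omega)
      omega
  -- where the parts are
  have mM := mainP_rows_mem_296 p rows hfit
  have mS : ∀ q ∈ (List.range (p.m + 2)).flatMap p.zoneS,
      q.1 < p.W ∧ p.Y + 1 ≤ q.2 ∧ q.2 ≤ p.Y + p.D := by
    intro q hq
    rw [List.mem_flatMap] at hq
    obtain ⟨j, hj, hq⟩ := hq
    have h1 := zoneS_mem_296 p _ q hL hq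
    have h3 : (j + 1) * p.L ≤ p.W := Nat.mul_le_mul_right _ (List.mem_range.1 hj)
    omega
  have mV := rowsV_mem_296 p
  have mT : ∀ q ∈ (List.range p.R).flatMap (fun k => p.zoneT (p.R - k)),
      1 ≤ q.2 ∧ p.X + 1 ≤ q.1 ∧ q.1 ≤ p.X + p.D := by
    intro q hq
    rw [List.mem_flatMap] at hq
    obtain ⟨j, hj, hq⟩ := hq
    have h1 := zoneT_mem_296 p _ q hL hq
    omega
  have mH := colsH_mem_296 p
  unfold Par.pts Par.rest
  have n1 : ((p.X + p.D + 1, 0) :: p.colsH).Nodup := by
    rw [List.nodup_cons]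
    refine ⟨?_, nH⟩
    intro h
    have h1 : p.XX ≤ p.X + p.D + 1 := (mH _ h).2
    omega
  have m1 : ∀ q ∈ ((p.X + p.D + 1, 0) :: p.colsH), p.X + p.D + 1 ≤ q.1 := by
    intro q hq
    rcases List.mem_cons.1 hq with rfl | hq
    · exact le_rfl
    · have := (mH _ hq).2
      omega
  have n2 : ((List.range p.R).flatMap (fun k => p.zoneT (p.R - k)) ++
      ((p.X + p.D + 1, 0) :: p.colsH)).Nodup := by
    rw [List.nodup_append]
    refine ⟨nT, n1, ?_⟩
    intro a ha b hb hab
    subst hab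
    have h1 := mT a ha
    have h2 := m1 a hb
    omega
  have m2 : ∀ q ∈ ((List.range p.R).flatMap (fun k => p.zoneT (p.R - k)) ++
      ((p.X + p.D + 1, 0) :: p.colsH)), p.X + 1 ≤ q.1 := by
    intro q hq
    rcases List.mem_append.1 hq with hq | hq
    · exact (mT q hq).2.1
    · have := m1 q hq
      omega
  have n3 : (p.rowsV ++ ((List.range p.R).flatMap (fun k => p.zoneT (p.R - k)) ++
      ((p.X + p.D + 1, 0) :: p.colsH))).Nodup := by
    rw [List.nodup_append]
    refine ⟨nV, n2, ?_⟩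
    intro a ha b hb hab
    subst hab
    have h1 := (mV a ha).1
    have h2 := m2 a hb
    omega
  have n4 : ((p.W, p.Y + p.D + 1) :: (p.rowsV ++
      ((List.range p.R).flatMap (fun k => p.zoneT (p.R - k)) ++
      ((p.X + p.D + 1, 0) :: p.colsH)))).Nodup := by
    rw [List.nodup_cons]
    refine ⟨?_, n3⟩
    intro h
    rcases List.mem_append.1 h with h | h
    · have h1 : p.YY ≤ p.Y + p.D + 1 := (mV _ h).2
      omega
    · have h1 : p.X + 1 ≤ p.W := m2 _ h
      omega
  have m4 : ∀ q ∈ ((p.W, p.Y + p.D + 1) :: (p.rowsV ++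
      ((List.range p.R).flatMap (fun k => p.zoneT (p.R - k)) ++
      ((p.X + p.D + 1, 0) :: p.colsH)))), p.X + 1 ≤ q.1 ∨ p.Y + p.D + 1 ≤ q.2 := by
    intro q hq
    rcases List.mem_cons.1 hq with rfl | hq
    · right; exact le_rfl
    · rcases List.mem_append.1 hq with hq | hq
      · right
        have := (mV _ hq).2
        omega
      · left; exact m2 _ hq
  have n5 : ((List.range (p.m + 2)).flatMap p.zoneS ++ ((p.W, p.Y + p.D + 1) :: (p.rowsV ++
      ((List.range p.R).flatMap (fun k => p.zoneT (p.R - k)) ++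
      ((p.X + p.D + 1, 0) :: p.colsH))))).Nodup := by
    rw [List.nodup_append]
    refine ⟨nS, n4, ?_⟩
    intro a ha b hb hab
    subst hab
    have h1 := mS a ha
    have h2 := m4 a hb
    omega
  rw [List.nodup_append]
  refine ⟨nM, n5, ?_⟩
  intro a ha b hb hab
  subst hab
  have h1 := mM a ha
  rcases List.mem_append.1 hb with hb | hb
  · have h2 := mS a hb
    omega
  · have h2 := m4 a hb
    omega

end Pool.Agent.Q229.PS
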