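import Pool.Agent.Q229.PS.Stm

set_option autoImplicit false

namespace Pool.Agent.Q229.PS

open Pool.Agent.NPC

theorem occ_length_296 (φ : F3) : (occ φ).length = 3 * φ.length := by
  unfold occ
  have key : ∀ n : ℕ, ((φ.zipIdx n).flatMap
      (fun p : (Lit ℕ × Lit ℕ × Lit ℕ) × ℕ => [(p.2, p.1.1), (p.2, p.1.2.1), (p.2, p.1.2.2)])).length =
      3 * φ.length := by
    induction φ with
    | nil => intro n; simp
    | cons c φ ih =>
      intro n
      rw [List.zipIdx_cons, List.flatMap_cons, List.length_append, ih (n + 1)]
      simp only [List.length_cons, List.length_nil]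
      omega
  exact key 0

theorem occ_fst_lt_296 (φ : F3) (o : ℕ × Lit ℕ) (ho : o ∈ occ φ) : o.1 < φ.length := by
  unfold occ at ho
  rw [List.mem_flatMap] at ho
  obtain ⟨⟨c, i⟩, hc, ho⟩ := ho
  obtain ⟨-, h2, -⟩ := List.mem_zipIdx hc
  simp only [List.mem_cons, List.not_mem_nil, or_false] at ho
  rcases ho with rfl | rfl | rfl <;> simpa using h2

theorem length_flatMap4_296 {α : Type} (l : List α) (f : α → List ℕ) (h : ∀ a, (f a).length = 4) :
    (l.flatMap f).length = 4 * l.length := by
  induction l with
  | nil => simp
  | cons a l ih =>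
    rw [List.flatMap_cons, List.length_append, ih, h, List.length_cons]
    omega

theorem blk_length_296 (φ : F3) (v : ℕ) : (blk φ v).length = 24 * φ.length + 4 := by
  unfold blk blkR part1 part2
  rw [List.length_cons, List.length_append, List.length_map, List.length_append, List.length_append,
    length_flatMap4_296 _ _ (fun _ => rfl), length_flatMap4_296 _ _ (fun _ => rfl), occ_length_296]
  simp only [List.length_cons, List.length_nil]
  omega

theorem rows_length_296 (φ : F3) :
    (rows φ).length = 3 * φ.length * (24 * φ.length + 4) + 1 := by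
  unfold rows
  rw [List.length_append, List.length_flatMap]
  have : List.map (fun a => (blk φ a).length) (List.range (3 * φ.length)) =
      List.replicate (3 * φ.length) (24 * φ.length + 4) := by
    rw [List.eq_replicate_iff]
    constructor
    · simp
    · intro b hb
      rw [List.mem_map] at hb
      obtain ⟨a, -, rfl⟩ := hb
      exact blk_length_296 φ a
  rw [this, List.sum_replicate]
  simp

theorem rows_mem_296 (φ : F3) (ρ : Row) (h : ρ ∈ rows φ) : ρ.1 ≤ ρ.2 ∧ ρ.2 ≤ φ.length + 1 := by
  unfold rows at h
  rw [List.mem_append, List.mem_flatMap] at h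
  rcases h with ⟨v, -, h⟩ | h
  · unfold blk blkR at h
    rw [List.mem_cons, List.mem_append, List.mem_map] at h
    rcases h with rfl | ⟨r, hr, rfl⟩ | h
    · exact ⟨le_rfl, Nat.zero_le _⟩
    · refine ⟨Nat.zero_le _, ?_⟩
      show r ≤ φ.length + 1
      unfold part1 part2 at hr
      rw [List.mem_append, List.mem_append, List.mem_flatMap, List.mem_flatMap] at hr
      rcases hr with ⟨o, ho, hr⟩ | ⟨o, ho, hr⟩ | hr
      · have h1 := occ_fst_lt_296 φ o ho
        have h2 : rT v o ≤ φ.length + 1 := by unfold rT; split_ifs <;> omega
        simp only [List.mem_cons, List.not_mem_nil, or_false] at hr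
        omega
      · have h1 := occ_fst_lt_296 φ o ho
        have h2 : rF v o ≤ φ.length + 1 := by unfold rF; split_ifs <;> omega
        simp only [List.mem_cons, List.not_mem_nil, or_false] at hr
        omega
      · simp only [List.mem_cons, List.not_mem_nil, or_false] at hr
        omega
    · rw [List.mem_singleton] at h
      subst h
      exact ⟨le_rfl, by show 1 ≤ φ.length + 1; omega⟩
  · rw [List.mem_singleton] at h
    subst h
    exact ⟨le_rfl, Nat.zero_le _⟩

theorem parOk_296 (φ : F3) : (parOf φ).Ok := by
  have hR := rows_length_296 φ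
  constructor
  · show 1 ≤ (rows φ).length
    omega
  · show (4 * (rows φ).length + 41) % 2 = 1
    omega
  · show 2 * (rows φ).length + 20 ≤ 4 * (rows φ).length + 41
    omega
  · intro j
    show cap φ j % 2 = 0 ∧ cap φ j < 4 * (rows φ).length + 41
    unfold cap
    split_ifs with h1 h2
    · have e : 3 * φ.length * (24 * φ.length + 4) = 2 * (φ.length * (36 * φ.length + 6)) := by ring
      omega
    · have e : 54 * φ.length * (φ.length - j) = 2 * (27 * φ.length * (φ.length - j)) := by ring
      have e2 : φ.length * (φ.length - j) ≤ φ.length * φ.length :=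
        Nat.mul_le_mul_left _ (Nat.sub_le _ _)
      have e3 : 3 * φ.length * (24 * φ.length + 4) = 72 * (φ.length * φ.length) + 12 * φ.length := by
        ring
      have e4 : 54 * φ.length * (φ.length - j) = 54 * (φ.length * (φ.length - j)) := by ring
      omega
    · omega
  · show cap φ (φ.length + 1) = 0
    unfold cap
    rw [if_neg (by omega), if_neg (by omega)]
  · show (4 * (rows φ).length + 4 * (4 * (rows φ).length + 41) * (φ.length + 2) +
      4 * (4 * (rows φ).length + 41) * (rows φ).length + 40) % 2 = 0
    have e : 4 * (rows φ).length + 4 * (4 * (rows φ).length + 41) * (φ.length + 2) +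
      4 * (4 * (rows φ).length + 41) * (rows φ).length + 40 = 2 * (2 * (rows φ).length +
      2 * (4 * (rows φ).length + 41) * (φ.length + 2) +
      2 * (4 * (rows φ).length + 41) * (rows φ).length + 20) := by ring
    rw [e]
    exact Nat.mul_mod_right _ _
  · show 2 * (rows φ).length + 2 * (4 * (rows φ).length + 41) * (φ.length + 2) +
      2 * (4 * (rows φ).length + 41) * (rows φ).length + 20 ≤
      4 * (rows φ).length + 4 * (4 * (rows φ).length + 41) * (φ.length + 2) +
      4 * (4 * (rows φ).length + 41) * (rows φ).length + 40
    gcongr <;> norm_num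
  · exact le_rfl
  · exact le_rfl
  · exact le_rfl
  · exact Nat.lt_succ_self _
  · exact Nat.lt_succ_self _

theorem f2_296 : F2Stm := by
  intro φ
  refine ⟨parOk_296 φ, ⟨rfl, rows_mem_296 φ⟩, ?_⟩
  intro us hus hcr
  refine ⟨parOk_296 φ, hus.length_eq.symm, ?_, ?_, hcr⟩
  · intro u hu
    obtain ⟨i, hi, rfl⟩ := List.getElem_of_mem hu
    have hi2 : i < (rows φ).length := by rw [hus.length_eq]; exact hi
    obtain ⟨b, hb⟩ := hus.get hi2 hi
    have hb' : us[i] = rowL b (rows φ)[i] := hb
    have h4 := rows_mem_296 φ _ (List.getElem_mem hi2)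
    have h5 : (parOf φ).m = φ.length := rfl
    rw [hb', h5]
    generalize (rows φ)[i] = ρ at h4
    unfold rowL
    split_ifs with h1 h2
    · refine ⟨by simp, by simp, ?_⟩
      intro x hx
      rw [List.mem_singleton] at hx
      omega
    · refine ⟨by simp, by simp, ?_⟩
      intro x hx
      simp only [List.mem_cons, List.not_mem_nil, or_false] at hx
      omega
    · refine ⟨by simp, by simp, ?_⟩
      intro x hx
      simp only [List.mem_cons, List.not_mem_nil, or_false] at hx
      omega
  · have h1 := List.forall₂_reverse_iff.2 hus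
    have h2 : (rows φ).reverse = (0, 0) :: ((List.range (3 * φ.length)).flatMap (blk φ)).reverse := by
      unfold rows
      rw [List.reverse_append]
      rfl
    rw [h2] at h1
    rw [← List.head?_reverse]
    generalize us.reverse = vs at h1
    cases h1 with
    | cons h3 h4 =>
      obtain ⟨b, hb⟩ := h3
      rw [hb]
      rfl

end Pool.Agent.Q229.PS
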