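import Pool.Agent.Q296.PS.N2aStm

set_option autoImplicit false

namespace Pool.Agent.Q229.PS

theorem n2b_296 : N2bStm := by
  intro hN1 p rows P hlow k hk1 hk
  obtain ⟨hok, hfit, hperm, hx, hy⟩ := hlow
  have hL := hok.L_pos
  have hXX := hok.XX_lt
  have hK : p.K = p.T + p.D := rfl
  have hkl : p.K * (2 * p.K) = 2 * p.K * p.K := by ring
  have hLK := hok.hL
  have hTb := hok.hTb
  have hkL : k * p.L + p.L ≤ p.H := by
    unfold Par.H
    have : (k + 1) * p.L ≤ (p.R + 1) * p.L := Nat.mul_le_mul_right _ (by omega)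
    rw [Nat.add_mul, Nat.one_mul] at this
    exact this
  obtain ⟨g, hg1, hg2, hg3⟩ := hN1 P Prod.snd Prod.fst p.K (k * p.L + 1) (p.L - 2)
    ((Finset.range p.D).image (fun i => p.X + 1 + i) ∪
      (Finset.range (p.T - 1)).image (fun i => (i + 1) * p.XX)) hy hx
    (fun h hh => by
      have := mem_hs_296 p.X p.XX _ _ h (by omega) hh
      omega)
    (by
      rw [card_hs_296 _ _ _ _ (by omega)]
      omega)
    (by omega)
    (by
      intro h hh i hi
      rw [Finset.mem_union, Finset.mem_image, Finset.mem_image] at hh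
      refine ⟨(h, k * p.L + 1 + i), ?_, rfl, rfl⟩
      rw [hperm.mem_iff]
      rcases hh with ⟨l, hl, rfl⟩ | ⟨l, hl, rfl⟩
      · apply mem_rest_zoneT_296 p rows k hk1 hk
        unfold Par.zoneT
        apply mem_zr_296 _ _ l (Finset.mem_range.1 hl)
        rw [List.mem_reverse]
        apply mem_vrun_296
        · omega
        · omega
      · apply mem_rest_colsH_296 p rows
        unfold Par.colsH
        apply mem_zr_296 _ _ l (Finset.mem_range.1 hl)
        apply mem_vrun_296
        · omega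
        · omega)
  refine ⟨g, hg1, ?_, ?_⟩
  · rw [Nat.add_mul, Nat.one_mul]
    omega
  · rw [card_hs_296 _ _ _ _ (by omega)] at hg3
    have hmono := adjC_mono (P := fun a b : Pt => cr g a.2 b.2 ∧ (a.1 ≤ p.W ∨ b.1 ≤ p.W))
      (Q := fun a b : Pt => cr g a.2 b.2 ∧ ¬ (a.1 = b.1 ∧ a.1 ∈
        ((Finset.range p.D).image (fun i => p.X + 1 + i) ∪
      (Finset.range (p.T - 1)).image (fun i => (i + 1) * p.XX)))) (by
        rintro a b ⟨h1, h2⟩
        refine ⟨h1, ?_⟩
        rintro ⟨h3, h4⟩
        have h5 := mem_hs_296 p.X p.XX _ _ _ (by omega) h4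
        have h7 := hok.W_le
        omega) P
    refine le_trans hmono ?_
    omega

end Pool.Agent.Q229.PS
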