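import Pool.Agent.Q296.PS.N2bStm

set_option autoImplicit false

namespace Pool.Agent.Q229.PS

/-- the kinds of points -/
theorem pts_cases_296 (p : Par) (rows : List Row) (hok : p.Ok) (hfit : p.Fits rows) (q : Pt)
    (hq : q ∈ p.pts rows) :
    (∃ x i, x ≤ p.m + 1 ∧ 1 ≤ i ∧ i ≤ p.R ∧ q = (x * p.L, i * p.L)) ∨ p.Y + 1 ≤ q.2 ∨
      p.X + 1 ≤ q.1 := by
  have hXX := hok.XX_lt
  have hYY := hok.YY_lt
  unfold Par.pts Par.rest at hq
  simp only [List.mem_append, List.mem_cons] at hq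
  rcases hq with hq | hq | hq | hq | hq | hq | hq
  · left
    unfold Par.mainP at hq
    rw [List.mem_flatMap] at hq
    obtain ⟨⟨u, i⟩, hu, hq⟩ := hq
    rw [List.mem_map] at hq
    obtain ⟨x, hx, rfl⟩ := hq
    have h1 := List.mem_zipIdx hu
    obtain ⟨-, h2, h3⟩ := h1
    simp only [List.length_map, Nat.sub_zero, Nat.zero_add, List.getElem_map] at h2 h3
    have hlen := hfit.1
    have h4 := hfit.2 (rows[i]) (List.getElem_mem _)
    refine ⟨x, i + 1, ?_, by omega, by omega, rfl⟩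
    have hx2 : x ∈ rowL true rows[i] := by rw [← h3]; exact hx
    unfold rowL at hx2
    by_cases h5 : (rows[i]).1 = (rows[i]).2
    · rw [if_pos h5, List.mem_singleton] at hx2
      omega
    · rw [if_neg h5, if_pos rfl, List.mem_cons, List.mem_cons] at hx2
      rcases hx2 with hx2 | hx2 | hx2
      · omega
      · omega
      · exact absurd hx2 List.not_mem_nil
  · right; left
    rw [List.mem_flatMap] at hq
    obtain ⟨j, -, hq⟩ := hq
    obtain ⟨i, -, hq⟩ := of_mem_zr_296 _ _ _ hq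
    have := of_mem_hrun_296 _ _ _ _ hq
    omega
  · right; left
    subst hq
    show p.Y + 1 ≤ p.Y + p.D + 1
    omega
  · right; left
    obtain ⟨i, -, hq⟩ := of_mem_zr_296 _ _ _ hq
    rw [List.mem_reverse] at hq
    have := of_mem_hrun_296 _ _ _ _ hq
    have h3 : p.YY ≤ (i + 1) * p.YY := Nat.le_mul_of_pos_left _ (Nat.succ_pos _)
    omega
  · right; right
    rw [List.mem_flatMap] at hq
    obtain ⟨j, -, hq⟩ := hq
    obtain ⟨i, -, hq⟩ := of_mem_zr_296 _ _ _ hq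
    rw [List.mem_reverse] at hq
    have := of_mem_vrun_296 _ _ _ _ hq
    omega
  · right; right
    subst hq
    show p.X + 1 ≤ p.X + p.D + 1
    omega
  · right; right
    obtain ⟨i, -, hq⟩ := of_mem_zr_296 _ _ _ hq
    have := of_mem_vrun_296 _ _ _ _ hq
    have h3 : p.XX ≤ (i + 1) * p.XX := Nat.le_mul_of_pos_left _ (Nat.succ_pos _)
    omega

/-- only the pairs which are adjacent matter -/
theorem adjC_mono_adj_296 {α : Type} {P Q : α → α → Prop} (S : α → α → Prop) (l : List α)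
    (hS : adjC S l = 0) (h : ∀ a ∈ l, ∀ b ∈ l, ¬ S a b → P a b → Q a b) : adjC P l ≤ adjC Q l := by
  classical
  have h1 : adjC P l ≤ adjC (fun a b => (P a b ∧ a ∈ l ∧ b ∈ l ∧ ¬ S a b) ∨ S a b) l := by
    rw [adjC_congr (P := P) (Q := fun a b => P a b ∧ a ∈ l ∧ b ∈ l) l (fun a ha b hb => by
      simp [ha, hb])]
    apply adjC_mono
    rintro a b ⟨h1, h2, h3⟩
    by_cases h4 : S a b
    · right; exact h4
    · left; exact ⟨h1, h2, h3, h4⟩
  have h2 := adjC_or_le (P := fun a b => P a b ∧ a ∈ l ∧ b ∈ l ∧ ¬ S a b) (Q := S) l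
  have h3 : adjC (fun a b => P a b ∧ a ∈ l ∧ b ∈ l ∧ ¬ S a b) l ≤ adjC Q l := by
    apply adjC_mono
    rintro a b ⟨h1, h2, h3, h4⟩
    exact h a h2 b h3 h4 h1
  omega

theorem n3_296 : N3Stm := by
  intro hN1 hN2a hN2b p rows P hlow k hk1 hk
  obtain ⟨g0, hg01, hg02, hg0⟩ := hN2a hN1 p rows P hlow (p.m + 1) le_rfl
  obtain ⟨g, hg1, hg2, hg⟩ := hN2b hN1 p rows P hlow k hk1 hk
  obtain ⟨hok, hfit, hperm, hx, hy⟩ := hlow
  rw [hok.hcapm, Nat.le_zero] at hg0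
  have hRL := hok.RL_lt
  have hHY := hok.H_le
  have hWX := hok.W_le
  have hL := hok.L_pos
  have hkR : k * p.L ≤ p.R * p.L := Nat.mul_le_mul_right _ hk
  have hW : p.W = (p.m + 1 + 1) * p.L := rfl
  have hk1L : (k + 1) * p.L ≤ p.H := by
    unfold Par.H
    exact Nat.mul_le_mul_right _ (by omega)
  refine le_trans (adjC_mono_adj_296 _ P hg0 ?_) hg
  have key : ∀ a ∈ P, ∀ b ∈ P, ¬ (cr g0 a.1 b.1) → InA p k a → ¬ InA p k b →
      cr g a.2 b.2 ∧ a.1 ≤ p.W := by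
    intro a ha b hb h0 hA hB
    obtain ⟨hA1, hA2⟩ := hA
    have hb1 : b.1 ≤ g0 := by
      by_contra hcon
      exact h0 (Or.inl ⟨by omega, by omega⟩)
    refine ⟨Or.inl ⟨by omega, ?_⟩, by omega⟩
    rcases pts_cases_296 p rows hok hfit b (hperm.mem_iff.1 hb) with ⟨x, i, hx1, hi1, hi2, hbe⟩ |
      hb2 | hb2
    · have hx2 : b.1 ≤ (p.m + 1) * p.L := by
        rw [hbe]
        exact Nat.mul_le_mul_right _ hx1
      have hb3 : ¬ b.2 ≤ k * p.L := fun h => hB ⟨hx2, h⟩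
      have hb4 : b.2 = i * p.L := by rw [hbe]
      have hik : k + 1 ≤ i := by
        by_contra hcon
        apply hb3
        rw [hb4]
        exact Nat.mul_le_mul_right _ (by omega)
      have hb5 : (k + 1) * p.L ≤ i * p.L := Nat.mul_le_mul_right _ hik
      omega
    · omega
    · omega
  intro a ha b hb hS hab
  have hS' : ∀ a b : Pt, ¬ (cr g0 a.1 b.1 ∧ (a.2 ≤ p.R * p.L ∨ b.2 ≤ p.R * p.L)) →
      a.2 ≤ p.R * p.L → ¬ cr g0 a.1 b.1 := fun a b h1 h2 h3 => h1 ⟨h3, Or.inl h2⟩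
  rcases hab with ⟨h1, h2⟩ | ⟨h1, h2⟩
  · have h3 := key a ha b hb (hS' a b hS (le_trans h1.2 hkR)) h1 h2
    exact ⟨h3.1, Or.inl h3.2⟩
  · have hS2 : ¬ (cr g0 b.1 a.1 ∧ (b.2 ≤ p.R * p.L ∨ a.2 ≤ p.R * p.L)) := by
      rintro ⟨h4, h5⟩
      exact hS ⟨(cr_comm _ _ _).1 h4, h5.symm⟩
    have h3 := key b hb a ha (hS' b a hS2 (le_trans h1.2 hkR)) h1 h2
    exact ⟨(cr_comm _ _ _).1 h3.1, Or.inr h3.2⟩

end Pool.Agent.Q229.PS
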