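import Pool.Agent.Q229.PS.Stm

set_option autoImplicit false

namespace Pool.Agent.Q229.PS

theorem mainP_map_fst_296 (p : Par) (us : List (List ℕ)) :
    (p.mainP us).map Prod.fst = us.flatten.map (fun x => x * p.L) := by
  unfold Par.mainP
  rw [List.map_flatMap]
  have h1 : ∀ (n : ℕ), (List.flatMap (fun a : List ℕ × ℕ => List.map Prod.fst
      (List.map (fun x => (x * p.L, (a.2 + 1) * p.L)) a.1)) (us.zipIdx n)) =
      us.flatten.map (fun x => x * p.L) := by
    induction us with
    | nil => intro n; simp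
    | cons u us ih =>
      intro n
      rw [List.zipIdx_cons, List.flatMap_cons, ih (n + 1), List.flatten_cons, List.map_append,
        List.map_map]
      rfl
  exact h1 0

theorem mainP_snd_le_296 (p : Par) (us : List (List ℕ)) (q : Pt) (hq : q ∈ p.mainP us) :
    q.2 ≤ us.length * p.L := by
  unfold Par.mainP at hq
  rw [List.mem_flatMap] at hq
  obtain ⟨⟨u, i⟩, hu, hq⟩ := hq
  rw [List.mem_map] at hq
  obtain ⟨x, hx, rfl⟩ := hq
  obtain ⟨-, h2, -⟩ := List.mem_zipIdx hu
  exact Nat.mul_le_mul_right _ (by omega)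

theorem n5_296 : N5Stm := by
  intro hN1 hN2a hN2b hN3 hN4 p rows P hlow
  obtain ⟨us, hus, Q, hQ⟩ := hN4 p rows P hlow.1 hlow.2.1 hlow.2.2.1 (hN3 hN1 hN2a hN2b p rows P hlow)
  refine ⟨us, hus, ?_⟩
  intro j hj
  obtain ⟨g, hg1, hg2, hg⟩ := hN2a hN1 p rows P hlow j (by omega)
  refine le_trans ?_ hg
  have hlen : us.length = p.R := by
    rw [← hus.length_eq]
    exact hlow.2.1.1
  -- passing to the reverse
  have hrev : adjC (fun a b : Pt => cr g a.1 b.1 ∧ (a.2 ≤ p.R * p.L ∨ b.2 ≤ p.R * p.L)) P.reverse =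
      adjC (fun a b : Pt => cr g a.1 b.1 ∧ (a.2 ≤ p.R * p.L ∨ b.2 ≤ p.R * p.L)) P := by
    apply adjC_reverse
    intro a b
    rw [cr_comm g a.1 b.1, or_comm]
  have hmain : adjC (fun a b : Pt => cr g a.1 b.1 ∧ (a.2 ≤ p.R * p.L ∨ b.2 ≤ p.R * p.L))
      (p.mainP us ++ Q) = adjC (fun a b : Pt => cr g a.1 b.1 ∧
        (a.2 ≤ p.R * p.L ∨ b.2 ≤ p.R * p.L)) P := by
    rcases hQ with hQ | hQ
    · rw [hQ]
    · rw [← hQ, hrev]
  rw [← hmain]
  refine le_trans ?_ (le_trans (Nat.le_add_right _ _) (adjC_add_le _ _))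
  have h1 : cross j us.flatten = adjC (fun a b : ℕ => cr g (a * p.L) (b * p.L)) us.flatten := by
    unfold cross
    apply adjC_congr
    intro a _ b _
    have hmul : ∀ x : ℕ, (x ≤ j ↔ x * p.L ≤ g) := by
      intro x
      constructor
      · intro hx
        have := Nat.mul_le_mul_right p.L hx
        omega
      · intro hx
        by_contra hcon
        have : (j + 1) * p.L ≤ x * p.L := Nat.mul_le_mul_right _ (by omega)
        omega
    unfold cr
    rw [← not_le, ← not_le, ← not_le, ← not_le, hmul a, hmul b]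
  have h2 : adjC (fun a b : ℕ => cr g (a * p.L) (b * p.L)) us.flatten =
      adjC (fun a b : Pt => cr g a.1 b.1) (p.mainP us) := by
    rw [← adjC_map (P := cr g) (fun x => x * p.L), ← adjC_map (P := cr g) Prod.fst,
      mainP_map_fst_296]
  rw [h1, h2]
  apply le_of_eq
  apply adjC_congr
  intro a ha b hb
  have h3 := mainP_snd_le_296 p us a ha
  rw [hlen] at h3
  simp [h3]

end Pool.Agent.Q229.PS
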