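import Pool.Agent.Q296.PS.N2aStm

set_option autoImplicit false

namespace Pool.Agent.Q229.PS

theorem of_mem_zg_296 (a b : ℕ → Pt) (n : ℕ) (q : Pt) (h : q ∈ zg a b n) :
    ∃ i, i < n ∧ (q = a i ∨ q = b i) := by
  unfold zg at h
  rw [List.mem_flatMap] at h
  obtain ⟨i, hi, hq⟩ := h
  refine ⟨i, List.mem_range.1 hi, ?_⟩
  split_ifs at hq
  · simpa using hq
  · have : q = b i ∨ q = a i := by simpa using hq
    exact this.symm

/-- lists which are first negative and then positive -/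
theorem split_296 (f : Pt → ℝ) (c : ℕ → List Pt) (N : ℕ → Prop) (hm : ∀ j, N j → N (j + 1)) (n : ℕ)
    (h : ∀ j < n, ¬ N j → ∀ q ∈ c j, f q < 0) (hp : ∀ j < n, N j → ∀ q ∈ c j, 0 < f q) :
    ∃ A B, (List.range n).flatMap c = A ++ B ∧ (∀ q ∈ A, f q < 0) ∧ (∀ q ∈ B, 0 < f q) ∧
      (B = [] ∨ N n) := by
  induction n with
  | zero => exact ⟨[], [], by simp, by simp, by simp, Or.inl rfl⟩
  | succ n ih =>
    obtain ⟨A, B, h1, hA, hB, h2⟩ := ih (fun j hj => h j (by omega)) (fun j hj => hp j (by omega))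
    rw [List.range_succ, List.flatMap_append, h1]
    by_cases hN : N n
    · refine ⟨A, B ++ c n, by simp, hA, ?_, Or.inr (hm n hN)⟩
      intro q hq
      rcases List.mem_append.1 hq with hq | hq
      · exact hB q hq
      · exact hp n (by omega) hN q hq
    · have hB0 : B = [] := by
        rcases h2 with h2 | h2
        · exact h2
        · exact absurd h2 hN
      subst hB0
      refine ⟨A ++ c n, [], by simp, ?_, by simp, Or.inl rfl⟩
      intro q hq
      rcases List.mem_append.1 hq with hq | hq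
      · exact hA q hq
      · exact h n (by omega) hN q hq

theorem sc_split_296 (f : Pt → ℝ) (c : ℕ → List Pt) (N : ℕ → Prop) (hm : ∀ j, N j → N (j + 1))
    (n : ℕ) (h : ∀ j < n, ¬ N j → ∀ q ∈ c j, f q < 0) (hp : ∀ j < n, N j → ∀ q ∈ c j, 0 < f q) :
    sc f ((List.range n).flatMap c) ≤ 1 := by
  obtain ⟨A, B, h1, hA, hB, -⟩ := split_296 f c N hm n h hp
  rw [h1]
  have h2 := adjC_append_le (P := fun p q => f p * f q < 0) A B
  have h3 := sc_neg_list f A hA
  have h4 := sc_pos f B hB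
  unfold sc at h3 h4 ⊢
  omega

theorem cS_mem_296 (p : Par) (j : ℕ) (q : Pt) (hq : q ∈ p.cS j) :
    (q.1 = j * p.L + 1 ∨ q.1 = j * p.L + p.L - 1) ∧ p.Y + 1 ≤ q.2 ∧ q.2 ≤ p.Y + p.D := by
  obtain ⟨i, hi, h⟩ := of_mem_zg_296 _ _ _ _ hq
  have hs : p.s j = p.D - p.cap j := rfl
  rcases h with rfl | rfl
  · exact ⟨Or.inl rfl, by show p.Y + 1 ≤ p.Y + 1 + i; omega,
      by show p.Y + 1 + i ≤ p.Y + p.D; omega⟩
  · exact ⟨Or.inr rfl, by show p.Y + 1 ≤ p.Y + 1 + i; omega,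
      by show p.Y + 1 + i ≤ p.Y + p.D; omega⟩

theorem cT_mem_296 (p : Par) (k : ℕ) (q : Pt) (hq : q ∈ p.cT k) :
    (q.2 = k * p.L + 1 ∨ q.2 = k * p.L + p.L - 1) ∧ p.X + 1 ≤ q.1 ∧ q.1 ≤ p.X + p.D := by
  obtain ⟨i, hi, h⟩ := of_mem_zg_296 _ _ _ _ hq
  rcases h with rfl | rfl
  · exact ⟨Or.inr rfl, by show p.X + 1 ≤ p.X + 1 + i; omega,
      by show p.X + 1 + i ≤ p.X + p.D; omega⟩
  · exact ⟨Or.inl rfl, by show p.X + 1 ≤ p.X + 1 + i; omega,
      by show p.X + 1 + i ≤ p.X + p.D; omega⟩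

theorem cR2_mem_296 (p : Par) (hok : p.Ok) (q : Pt) (hq : q ∈ p.cR2) :
    p.X + 1 ≤ q.1 ∧ q.2 ≤ p.H := by
  have hXX := hok.XX_lt
  have hL := hok.L_pos
  unfold Par.cR2 at hq
  simp only [List.mem_append, List.mem_cons] at hq
  rcases hq with hq | hq | hq
  · rw [List.mem_flatMap] at hq
    obtain ⟨k, hk, hq⟩ := hq
    have hk' := List.mem_range.1 hk
    have h1 := cT_mem_296 p _ q hq
    have h2 : (p.R - k + 1) * p.L ≤ p.H := Nat.mul_le_mul_right _ (by omega)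
    rw [Nat.add_mul, Nat.one_mul] at h2
    omega
  · subst hq
    refine ⟨by show p.X + 1 ≤ p.X + p.D + 1; omega, Nat.zero_le _⟩
  · obtain ⟨i, hi, h⟩ := of_mem_zg_296 _ _ _ _ hq
    have h3 : p.XX ≤ (i + 1) * p.XX := Nat.le_mul_of_pos_left _ (Nat.succ_pos _)
    rcases h with rfl | rfl
    · exact ⟨by show p.X + 1 ≤ (i + 1) * p.XX; omega, Nat.zero_le _⟩
    · exact ⟨by show p.X + 1 ≤ (i + 1) * p.XX; omega, le_rfl⟩

theorem y6_296 : Y6Stm := by
  intro p hok M f x0 hM hlow hno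
  obtain ⟨h1, h2, h3, h4⟩ := hlow
  have hL := hok.L_pos
  have hDR := hok.hDR
  have hK : p.K = p.T + p.D := rfl
  have hcr1 : sc f ((List.range (p.m + 2)).flatMap p.cS) ≤ 1 := by
    apply sc_split_296 f p.cS (fun j => x0 < (j * p.L : ℝ) + 3 / 4)
    · intro j hj
      have : (0 : ℝ) ≤ p.L := Nat.cast_nonneg _
      push_cast
      nlinarith
    · intro j hj hneg q hq
      obtain ⟨hq1, hq2, hq3⟩ := cS_mem_296 p j q hq
      refine (h1 q (by omega)).2 ?_
      have hz := hno j (by omega)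
      have hx : (j * p.L : ℝ) + p.L - 3 / 4 < x0 := by
        by_contra hcon
        exact hz ⟨not_lt.1 hneg, not_lt.1 hcon⟩
      have hq4 : q.1 + 1 ≤ j * p.L + p.L := by omega
      have hq5 : (q.1 : ℝ) + 1 ≤ j * p.L + p.L := by exact_mod_cast hq4
      linarith
    · intro j hj hpos q hq
      obtain ⟨hq1, hq2, hq3⟩ := cS_mem_296 p j q hq
      refine (h1 q (by omega)).1 ?_
      have hq4 : j * p.L + 1 ≤ q.1 := by omega
      have hq5 : (j * p.L : ℝ) + 1 ≤ q.1 := by exact_mod_cast hq4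
      linarith
  have hcr2 : sc f p.cR2 = 0 := sc_pos f _ (fun q hq => by
    have h5 := cR2_mem_296 p hok q hq
    exact h2 q h5.1 h5.2)
  have e1 := adjC_append_le (P := fun p q => f p * f q < 0) M p.cRest
  have e2 := adjC_append_le (P := fun p q => f p * f q < 0) p.cR1 (p.cV ++ p.cR2)
  have e3 := adjC_append_le (P := fun p q => f p * f q < 0) p.cV p.cR2
  have e4 := adjC_append_le (P := fun p q => f p * f q < 0) ((List.range (p.m + 2)).flatMap p.cS)
    [(p.W, p.Y + p.D + 1)]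
  have e5 := adjC_le (P := fun p q => f p * f q < 0) M
  have e6 : adjC (fun p q => f p * f q < 0) [(p.W, p.Y + p.D + 1)] = 0 := rfl
  have e7 : p.cRest = p.cR1 ++ (p.cV ++ p.cR2) := rfl
  have e8 : p.cR1 = (List.range (p.m + 2)).flatMap p.cS ++ [(p.W, p.Y + p.D + 1)] := rfl
  rw [← e7] at e2
  rw [← e8] at e4
  unfold sc at h4 hcr1 hcr2 ⊢
  omega

end Pool.Agent.Q229.PS
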