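import Pool.Agent.Q229.PS.Stm

set_option autoImplicit false

namespace Pool.Agent.Q229.PS

theorem mainP_length_296 (p : Par) (us : List (List ℕ)) (h : ∀ u ∈ us, u.length ≤ 2) :
    (p.mainP us).length ≤ 2 * us.length := by
  have h1 : ∀ n : ℕ, ((us.zipIdx n).flatMap
      (fun q => q.1.map (fun x => (x * p.L, (q.2 + 1) * p.L)))).length ≤ 2 * us.length := by
    induction us with
    | nil => intro n; simp
    | cons u us ih =>
      intro n
      rw [List.zipIdx_cons, List.flatMap_cons, List.length_append, List.length_cons]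
      have h2 := ih (fun v hv => h v (List.mem_cons_of_mem _ hv)) (n + 1)
      have h3 := h u List.mem_cons_self
      have h4 : (List.map (fun x => (x * p.L, ((u, n).2 + 1) * p.L)) (u, n).1).length ≤ 2 := by
        rw [List.length_map]
        exact h3
      omega
  exact h1 0

theorem y9_296 : Y9Stm := by
  intro hY0 hY1 hY2 hY3 hY4 hY5 hY6 hY7 hY8 p us hwk α β γ
  have hok := hwk.1
  refine le_trans (hY0 p hok (p.mainP us) α β γ) ?_
  have hlen : (p.mainP us).length ≤ 2 * p.R := by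
    rw [← hwk.2.1]
    exact mainP_length_296 p us (fun u hu => (hwk.2.2.1 u hu).2.1)
  by_cases hV : ∃ i i' : ℕ, i < i' ∧ i' < p.T ∧
      lin α β γ (p.W, (i + 1) * p.YY) * lin α β γ (0, (i + 1) * p.YY) < 0 ∧
      lin α β γ (p.W, (i' + 1) * p.YY) * lin α β γ (0, (i' + 1) * p.YY) < 0
  · obtain ⟨i, i', h1, h2, h3, h4⟩ := hV
    obtain ⟨f, x0, hf, hlow⟩ := hY3 hY1 p hok α β γ i i' h1 h2 h3 h4
    have hsc : sc f (p.mainP us ++ p.cRest) = sc (lin α β γ) (p.mainP us ++ p.cRest) := by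
      rcases hf with hf | hf
      · rw [hf]
      · rw [hf, sc_neg]
    rw [← hsc]
    by_cases hz : ∃ j ≤ p.m + 1, (j * p.L : ℝ) + 3 / 4 ≤ x0 ∧ x0 ≤ (j * p.L : ℝ) + p.L - 3 / 4
    · obtain ⟨j, hj, h5, h6⟩ := hz
      exact hY5 hY1 p us hwk f x0 hlow j hj h5 h6
    · exact hY6 p hok _ f x0 hlen hlow (fun j hj h => hz ⟨j, hj, h⟩)
  · by_cases hH : ∃ i i' : ℕ, i < i' ∧ i' < p.T - 1 ∧
        lin α β γ ((i + 1) * p.XX, 0) * lin α β γ ((i + 1) * p.XX, p.H) < 0 ∧
        lin α β γ ((i' + 1) * p.XX, 0) * lin α β γ ((i' + 1) * p.XX, p.H) < 0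
    · obtain ⟨i, i', h1, h2, h3, h4⟩ := hH
      obtain ⟨f, y0, hf, hlow⟩ := hY4 hY1 p hok α β γ i i' h1 h2 h3 h4
      have hsc : sc f (p.mainP us ++ p.cRest) = sc (lin α β γ) (p.mainP us ++ p.cRest) := by
        rcases hf with hf | hf
        · rw [hf]
        · rw [hf, sc_neg]
      rw [← hsc]
      by_cases hz : ∃ k, 1 ≤ k ∧ k ≤ p.R ∧ (k * p.L : ℝ) + 3 / 4 ≤ y0 ∧
          y0 ≤ (k * p.L : ℝ) + p.L - 3 / 4
      · obtain ⟨k, hk1, hk, h5, h6⟩ := hz
        exact hY7 hY1 p us hwk f y0 hlow k hk1 hk h5 h6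
      · exact hY8 p hok _ f y0 hlen hlow (fun k hk1 hk h => hz ⟨k, hk1, hk, h⟩)
    · refine hY2 hY1 p hok (p.mainP us) α β γ hlen ?_ ?_
      · intro i hi i' hi' h1 h2
        by_contra hne
        rcases Nat.lt_or_gt_of_ne hne with h | h
        · exact hV ⟨i, i', h, hi', h1, h2⟩
        · exact hV ⟨i', i, h, hi, h2, h1⟩
      · intro i hi i' hi' h1 h2
        by_contra hne
        rcases Nat.lt_or_gt_of_ne hne with h | h
        · exact hH ⟨i, i', h, hi', h1, h2⟩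
        · exact hH ⟨i', i, h, hi, h2, h1⟩

end Pool.Agent.Q229.PS
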