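import Pool.Agent.Q229.PS.Stm

set_option autoImplicit false

namespace Pool.Agent.Q229.PS

theorem mem_hrun_296 (x0 n y x : ℕ) (h0 : x0 ≤ x) (h1 : x < x0 + n) : (x, y) ∈ hrun x0 n y := by
  unfold hrun
  rw [List.mem_map]
  exact ⟨x - x0, List.mem_range.2 (by omega), by rw [Nat.add_sub_cancel' h0]⟩

theorem mem_vrun_296 (x y0 n y : ℕ) (h0 : y0 ≤ y) (h1 : y < y0 + n) : (x, y) ∈ vrun x y0 n := by
  unfold vrun
  rw [List.mem_map]
  exact ⟨y - y0, List.mem_range.2 (by omega), by rw [Nat.add_sub_cancel' h0]⟩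

theorem mem_zr_296 (r : ℕ → List Pt) (n i : ℕ) (hi : i < n) (q : Pt) (hq : q ∈ r i) :
    q ∈ zr r n := by
  unfold zr
  rw [List.mem_flatMap]
  refine ⟨i, List.mem_range.2 hi, ?_⟩
  split_ifs
  · exact hq
  · exact List.mem_reverse.2 hq

theorem of_mem_zr_296 (r : ℕ → List Pt) (n : ℕ) (q : Pt) (h : q ∈ zr r n) :
    ∃ i, i < n ∧ q ∈ r i := by
  unfold zr at h
  rw [List.mem_flatMap] at h
  obtain ⟨i, hi, hq⟩ := h
  refine ⟨i, List.mem_range.1 hi, ?_⟩
  split_ifs at hq
  · exact hq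
  · exact List.mem_reverse.1 hq

theorem of_mem_hrun_296 (x0 n y : ℕ) (q : Pt) (h : q ∈ hrun x0 n y) :
    x0 ≤ q.1 ∧ q.1 < x0 + n ∧ q.2 = y := by
  unfold hrun at h
  rw [List.mem_map] at h
  obtain ⟨i, hi, rfl⟩ := h
  have := List.mem_range.1 hi
  exact ⟨Nat.le_add_right _ _, by simpa using this, rfl⟩

theorem of_mem_vrun_296 (x y0 n : ℕ) (q : Pt) (h : q ∈ vrun x y0 n) :
    q.1 = x ∧ y0 ≤ q.2 ∧ q.2 < y0 + n := by
  unfold vrun at h
  rw [List.mem_map] at h
  obtain ⟨i, hi, rfl⟩ := h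
  have := List.mem_range.1 hi
  exact ⟨rfl, Nat.le_add_right _ _, by simpa using this⟩

namespace Par

variable {p : Par}

theorem Ok.L_pos (h : p.Ok) : 4 ≤ p.L := le_trans (Nat.le_add_left _ _) h.hL

theorem Ok.W_pos (h : p.Ok) : 1 ≤ p.W := by
  have := h.L_pos
  unfold Par.W
  exact Nat.succ_le_of_lt (Nat.mul_pos (by omega) (by omega))

theorem Ok.H_pos (h : p.Ok) : 1 ≤ p.H := by
  have := h.L_pos
  unfold Par.H
  exact Nat.succ_le_of_lt (Nat.mul_pos (by omega) (by omega))

theorem Ok.H_le (h : p.Ok) : p.H ≤ p.Y :=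
  le_trans (Nat.le_mul_of_pos_left _ (Nat.succ_pos _)) h.hY

theorem Ok.W_le (h : p.Ok) : p.W ≤ p.X :=
  le_trans (Nat.le_mul_of_pos_left _ (Nat.succ_pos _)) h.hX

theorem Ok.YY_lt (h : p.Ok) : p.Y + p.D + 2 < p.YY :=
  lt_of_le_of_lt (Nat.le_mul_of_pos_left _ (Nat.mul_pos (by norm_num) h.W_pos)) h.hYY

theorem Ok.XX_lt (h : p.Ok) : p.X + p.D + 2 < p.XX :=
  lt_of_le_of_lt (Nat.le_mul_of_pos_left _ (Nat.mul_pos (by norm_num) h.H_pos)) h.hXX

theorem Ok.RL_lt (h : p.Ok) : p.R * p.L < p.H := by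
  have := h.L_pos
  unfold Par.H
  rw [Nat.add_mul]
  omega

end Par

/-- the heights used in N2a -/
theorem card_hs_296 (a b n m : ℕ) (hb : a + n < b) :
    ((Finset.range n).image (fun i => a + 1 + i) ∪
      (Finset.range m).image (fun i => (i + 1) * b)).card = n + m := by
  rw [Finset.card_union_of_disjoint, Finset.card_image_of_injective, Finset.card_image_of_injective,
    Finset.card_range, Finset.card_range]
  · intro x y hxy
    have h1 : (x + 1) * b = (y + 1) * b := hxy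
    have h2 := Nat.eq_of_mul_eq_mul_right (by omega) h1
    omega
  · intro x y hxy
    have h1 : a + 1 + x = a + 1 + y := hxy
    omega
  · rw [Finset.disjoint_left]
    intro x hx hy
    rw [Finset.mem_image] at hx hy
    obtain ⟨i, hi, h1⟩ := hx
    obtain ⟨k, hk, h2⟩ := hy
    have := Finset.mem_range.1 hi
    have h3 : b ≤ (k + 1) * b := Nat.le_mul_of_pos_left _ (Nat.succ_pos _)
    omega

theorem mem_hs_296 (a b n m x : ℕ) (hb : a + n < b)
    (hx : x ∈ ((Finset.range n).image (fun i => a + 1 + i) ∪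
      (Finset.range m).image (fun i => (i + 1) * b))) : a + 1 ≤ x := by
  rw [Finset.mem_union, Finset.mem_image, Finset.mem_image] at hx
  rcases hx with ⟨i, hi, h1⟩ | ⟨i, hi, h1⟩
  · omega
  · have h3 : b ≤ (i + 1) * b := Nat.le_mul_of_pos_left _ (Nat.succ_pos _)
    omega

theorem mem_rest_zoneS_296 (p : Par) (rows : List Row) (j : ℕ) (hj : j ≤ p.m + 1) (q : Pt)
    (hq : q ∈ p.zoneS j) : q ∈ p.pts rows := by
  unfold Par.pts Par.rest
  simp only [List.mem_append, List.mem_cons]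
  right; left
  rw [List.mem_flatMap]
  exact ⟨j, List.mem_range.2 (by omega), hq⟩

theorem mem_rest_rowsV_296 (p : Par) (rows : List Row) (q : Pt)
    (hq : q ∈ p.rowsV) : q ∈ p.pts rows := by
  unfold Par.pts Par.rest
  simp only [List.mem_append, List.mem_cons]
  right; right; right; left
  exact hq

theorem mem_rest_zoneT_296 (p : Par) (rows : List Row) (k : ℕ) (h1 : 1 ≤ k) (hk : k ≤ p.R) (q : Pt)
    (hq : q ∈ p.zoneT k) : q ∈ p.pts rows := by
  unfold Par.pts Par.rest
  simp only [List.mem_append, List.mem_cons]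
  right; right; right; right; left
  rw [List.mem_flatMap]
  exact ⟨p.R - k, List.mem_range.2 (by omega), by rwa [Nat.sub_sub_self hk]⟩

theorem mem_rest_colsH_296 (p : Par) (rows : List Row) (q : Pt)
    (hq : q ∈ p.colsH) : q ∈ p.pts rows := by
  unfold Par.pts Par.rest
  simp only [List.mem_append, List.mem_cons]
  right; right; right; right; right; right
  exact hq

theorem n2a_296 : N2aStm := by
  intro hN1 p rows P hlow j hj
  obtain ⟨hok, hfit, hperm, hx, hy⟩ := hlow
  have hL := hok.L_pos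
  have hYY := hok.YY_lt
  have hcap := (hok.hcap j).2
  have hs : p.s j = p.D - p.cap j := rfl
  have hK : p.K = p.T + p.D := rfl
  have hkl : p.K * (2 * p.K) = 2 * p.K * p.K := by ring
  have hLK := hok.hL
  have hjL : j * p.L + p.L ≤ p.W := by
    unfold Par.W
    have : (j + 1) * p.L ≤ (p.m + 2) * p.L := Nat.mul_le_mul_right _ (by omega)
    rw [Nat.add_mul, Nat.one_mul] at this
    exact this
  obtain ⟨g, hg1, hg2, hg3⟩ := hN1 P Prod.fst Prod.snd p.K (j * p.L + 1) (p.L - 2)
    ((Finset.range (p.s j)).image (fun i => p.Y + 1 + i) ∪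
      (Finset.range p.T).image (fun i => (i + 1) * p.YY)) hx hy
    (fun h hh => by
      have := mem_hs_296 p.Y p.YY _ _ h (by omega) hh
      omega)
    (by
      rw [card_hs_296 _ _ _ _ (by omega)]
      omega)
    (by omega)
    (by
      intro h hh i hi
      rw [Finset.mem_union, Finset.mem_image, Finset.mem_image] at hh
      refine ⟨(j * p.L + 1 + i, h), ?_, rfl, rfl⟩
      rw [hperm.mem_iff]
      rcases hh with ⟨k, hk, rfl⟩ | ⟨k, hk, rfl⟩
      · apply mem_rest_zoneS_296 p rows j hj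
        unfold Par.zoneS
        apply mem_zr_296 _ _ k (Finset.mem_range.1 hk)
        apply mem_hrun_296
        · omega
        · omega
      · apply mem_rest_rowsV_296 p rows
        unfold Par.rowsV
        apply mem_zr_296 _ _ k (Finset.mem_range.1 hk)
        rw [List.mem_reverse]
        apply mem_hrun_296
        · omega
        · omega)
  refine ⟨g, hg1, ?_, ?_⟩
  · rw [Nat.add_mul, Nat.one_mul]
    omega
  · rw [card_hs_296 _ _ _ _ (by omega)] at hg3
    have hmono := adjC_mono (P := fun a b : Pt => cr g a.1 b.1 ∧ (a.2 ≤ p.R * p.L ∨ b.2 ≤ p.R * p.L))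
      (Q := fun a b : Pt => cr g a.1 b.1 ∧ ¬ (a.2 = b.2 ∧ a.2 ∈
        ((Finset.range (p.s j)).image (fun i => p.Y + 1 + i) ∪
      (Finset.range p.T).image (fun i => (i + 1) * p.YY)))) (by
        rintro a b ⟨h1, h2⟩
        refine ⟨h1, ?_⟩
        rintro ⟨h3, h4⟩
        have h5 := mem_hs_296 p.Y p.YY _ _ _ (by omega) h4
        have h6 := hok.RL_lt
        have h7 := hok.H_le
        omega) P
    refine le_trans hmono ?_
    omega

end Pool.Agent.Q229.PS
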