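import Pool.Agent.Q296.PS.Y6Stm

set_option autoImplicit false

namespace Pool.Agent.Q229.PS

theorem cR1_mem_296 (p : Par) (hok : p.Ok) (q : Pt) (hq : q ∈ p.cR1) :
    p.Y + 1 ≤ q.2 ∧ q.1 ≤ p.W := by
  have hL := hok.L_pos
  unfold Par.cR1 at hq
  simp only [List.mem_append, List.mem_singleton] at hq
  rcases hq with hq | hq
  · rw [List.mem_flatMap] at hq
    obtain ⟨j, hj, hq⟩ := hq
    have hj' := List.mem_range.1 hj
    have h1 := cS_mem_296 p _ q hq
    have h2 : (j + 1) * p.L ≤ p.W := Nat.mul_le_mul_right _ (by omega)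
    rw [Nat.add_mul, Nat.one_mul] at h2
    omega
  · subst hq
    exact ⟨by show p.Y + 1 ≤ p.Y + p.D + 1; omega, le_rfl⟩

theorem cV_mem_296 (p : Par) (hok : p.Ok) (q : Pt) (hq : q ∈ p.cV) :
    p.Y + 1 ≤ q.2 ∧ q.1 ≤ p.W := by
  have hYY := hok.YY_lt
  obtain ⟨i, hi, h⟩ := of_mem_zg_296 _ _ _ _ hq
  have h3 : p.YY ≤ (i + 1) * p.YY := Nat.le_mul_of_pos_left _ (Nat.succ_pos _)
  rcases h with rfl | rfl
  · exact ⟨by show p.Y + 1 ≤ (i + 1) * p.YY; omega, le_rfl⟩
  · exact ⟨by show p.Y + 1 ≤ (i + 1) * p.YY; omega, Nat.zero_le _⟩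

theorem y8_296 : Y8Stm := by
  intro p hok M f y0 hM hlow hno
  obtain ⟨h1, h2, h3, h4⟩ := hlow
  have hL := hok.L_pos
  have hDR := hok.hDR
  have hK : p.K = p.T + p.D := rfl
  have hcr : sc f ((List.range p.R).flatMap (fun k => p.cT (p.R - k))) ≤ 1 := by
    rw [← sc_neg']
    apply sc_split_296 (fun q => - f q) (fun k => p.cT (p.R - k))
      (fun k => (((p.R - k : ℕ) : ℝ) * p.L : ℝ) + 3 / 4 ≤ y0)
    · intro k hk
      refine le_trans ?_ hk
      have h5 : (((p.R - (k + 1) : ℕ) : ℝ)) ≤ ((p.R - k : ℕ) : ℝ) := by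
        exact_mod_cast (by omega : p.R - (k + 1) ≤ p.R - k)
      have : (0 : ℝ) ≤ p.L := Nat.cast_nonneg _
      nlinarith
    · intro k hk hpos q hq
      obtain ⟨hq1, hq2, hq3⟩ := cT_mem_296 p _ q hq
      have h6 := (h1 q (by omega)).1
      have hq4 : (p.R - k) * p.L + 1 ≤ q.2 := by omega
      have hq5 : (((p.R - k : ℕ) : ℝ) * p.L : ℝ) + 1 ≤ q.2 := by exact_mod_cast hq4
      have := h6 (by
        have := not_le.1 hpos
        linarith)
      show - f q < 0
      linarith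
    · intro k hk hneg q hq
      obtain ⟨hq1, hq2, hq3⟩ := cT_mem_296 p _ q hq
      have h6 := (h1 q (by omega)).2
      have hz := hno (p.R - k) (by omega) (by omega)
      have hx : (((p.R - k : ℕ) : ℝ) * p.L : ℝ) + p.L - 3 / 4 < y0 := by
        by_contra hcon
        exact hz ⟨hneg, not_lt.1 hcon⟩
      have hq4 : q.2 + 1 ≤ (p.R - k) * p.L + p.L := by omega
      have hq5 : (q.2 : ℝ) + 1 ≤ ((p.R - k : ℕ) : ℝ) * p.L + p.L := by exact_mod_cast hq4
      have := h6 (by linarith)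
      show 0 < - f q
      linarith
  have hcr1 : sc f p.cR1 = 0 := sc_pos f _ (fun q hq => by
    have h5 := cR1_mem_296 p hok q hq
    exact h2 q h5.1 h5.2)
  have hcv : sc f p.cV = 0 := sc_pos f _ (fun q hq => by
    have h5 := cV_mem_296 p hok q hq
    exact h2 q h5.1 h5.2)
  have e1 := adjC_append_le (P := fun p q => f p * f q < 0) M p.cRest
  have e2 := adjC_append_le (P := fun p q => f p * f q < 0) p.cR1 (p.cV ++ p.cR2)
  have e3 := adjC_append_le (P := fun p q => f p * f q < 0) p.cV p.cR2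
  have e4 := adjC_append_le (P := fun p q => f p * f q < 0)
    ((List.range p.R).flatMap (fun k => p.cT (p.R - k))) ((p.X + p.D + 1, 0) :: p.cH)
  have e9 := adjC_append_le (P := fun p q => f p * f q < 0) [(p.X + p.D + 1, 0)] p.cH
  have e5 := adjC_le (P := fun p q => f p * f q < 0) M
  have e6 : adjC (fun p q => f p * f q < 0) [(p.X + p.D + 1, 0)] = 0 := rfl
  have e7 : p.cRest = p.cR1 ++ (p.cV ++ p.cR2) := rfl
  have e8 : p.cR2 = (List.range p.R).flatMap (fun k => p.cT (p.R - k)) ++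
    ((p.X + p.D + 1, 0) :: p.cH) := rfl
  rw [← e7] at e2
  rw [← e8] at e4
  rw [List.singleton_append] at e9
  unfold sc at h4 hcr hcr1 hcv ⊢
  omega

end Pool.Agent.Q229.PS
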